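import Pool.Agent.K3h16.MI.Stm2

/-!
Identity theorems on half planes (after helper7's `Phi.lean`).
-/

open MeasureTheory Set Filter Topology

namespace Pool.Agent.K3h16.MI

theorem ray_tendsto :
    Tendsto (fun k : ℕ => ((5 + 1 / ((k : ℝ) + 1) : ℝ) : ℂ)) atTop (𝓝[≠] (5 : ℂ)) := by
  rw [tendsto_nhdsWithin_iff]
  constructor
  · have h1 : Tendsto (fun k : ℕ => 5 + 1 / ((k : ℝ) + 1)) atTop (𝓝 (5 + 0)) :=
      tendsto_const_nhds.add tendsto_one_div_add_atTop_nhds_zero_nat
    rw [add_zero] at h1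
    have h2 := (Complex.continuous_ofReal.tendsto (5 : ℝ)).comp h1
    have e5 : ((5 : ℝ) : ℂ) = 5 := by norm_num
    rw [e5] at h2
    exact h2
  · refine Eventually.of_forall (fun k hk => ?_)
    have h1 : ((5 + 1 / ((k : ℝ) + 1) : ℝ) : ℂ) = ((5 : ℝ) : ℂ) := by
      rw [mem_singleton_iff] at hk
      rw [hk]
      simp
    rw [Complex.ofReal_inj] at h1
    have h2 : (0 : ℝ) < 1 / ((k : ℝ) + 1) := by positivity
    linarith

theorem differentiable_pm (m : ℕ) : Differentiable ℂ (pm m) := by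
  unfold pm
  fun_prop

theorem t_IDENT2 : S_IDENT2 := by
  intro m A B hB hA hs
  obtain ⟨H, hH⟩ : ∃ H : Set ℂ, H = {z : ℂ | -(2 * (m : ℝ)) - 1 < z.re} := ⟨_, rfl⟩
  have hHo : IsOpen H := by
    rw [hH]
    exact isOpen_lt continuous_const Complex.continuous_re
  have hHc : IsPreconnected H := by
    rw [hH]
    exact (convex_halfSpace_re_gt _).isPreconnected
  obtain ⟨F, hF⟩ : ∃ F : ℂ → ℂ, F = fun z => pm m z * B z - A z := ⟨_, rfl⟩
  have hFm : MeromorphicOn F H := by
    intro z hz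
    rw [hF]
    have hz' : -(2 * (m : ℝ)) - 1 < z.re := by
      rw [hH] at hz
      exact hz
    refine (((differentiable_pm m).analyticAt z).meromorphicAt.mul (hB z hz')).sub ?_
    rw [← hH] at hA
    exact (hA.analyticAt (hHo.mem_nhds hz)).meromorphicAt
  have h5 : (5 : ℂ) ∈ H := by
    rw [hH]
    have : (0 : ℝ) ≤ m := Nat.cast_nonneg m
    show -(2 * (m : ℝ)) - 1 < (5 : ℂ).re
    have e : (5 : ℂ).re = 5 := by simp
    rw [e]
    linarith
  have hm : (-(2 * (m : ℂ))) ∈ H := by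
    rw [hH]
    show -(2 * (m : ℝ)) - 1 < (-(2 * (m : ℂ))).re
    have e : (-(2 * (m : ℂ))).re = -(2 * (m : ℝ)) := by simp
    rw [e]
    linarith
  have htop : meromorphicOrderAt F 5 = ⊤ := by
    rw [meromorphicOrderAt_eq_top_iff]
    rcases (hFm 5 h5).eventually_eq_zero_or_eventually_ne_zero with h | h
    · exact h
    · exfalso
      obtain ⟨k, hk⟩ := (ray_tendsto.eventually h).exists
      apply hk
      rw [hF]
      have h1 := hs (5 + 1 / ((k : ℝ) + 1)) (by
        have : (0 : ℝ) < 1 / ((k : ℝ) + 1) := by positivity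
        linarith)
      show pm m _ * B _ - A _ = 0
      rw [h1, sub_self]
  have h0 : meromorphicOrderAt F (-(2 * (m : ℂ))) = ⊤ := by
    by_contra hne
    exact hFm.meromorphicOrderAt_ne_top_of_isPreconnected hHc hm h5 hne htop
  rw [meromorphicOrderAt_eq_top_iff] at h0
  filter_upwards [h0] with z hz
  rw [hF] at hz
  exact sub_eq_zero.1 hz

theorem t_IDENT3 : S_IDENT3 := by
  intro m A F hA hF hs z hz
  obtain ⟨H, hH⟩ : ∃ H : Set ℂ, H = {z : ℂ | -(m : ℝ) < z.re} := ⟨_, rfl⟩
  have hHo : IsOpen H := by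
    rw [hH]
    exact isOpen_lt continuous_const Complex.continuous_re
  have hHc : IsPreconnected H := by
    rw [hH]
    exact (convex_halfSpace_re_gt _).isPreconnected
  rw [← hH] at hA hF
  have h5 : (5 : ℂ) ∈ H := by
    rw [hH]
    have : (0 : ℝ) ≤ m := Nat.cast_nonneg m
    show -(m : ℝ) < (5 : ℂ).re
    have e : (5 : ℂ).re = 5 := by simp
    rw [e]
    linarith
  have ha : AnalyticOnNhd ℂ A H := hA.analyticOnNhd hHo
  have hf : AnalyticOnNhd ℂ (fun z => pm m z * F z) H :=
    ((differentiable_pm m).differentiableOn.mul hF).analyticOnNhd hHo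
  have hfr : ∃ᶠ w in 𝓝[≠] (5 : ℂ), pm m w * F w = A w := by
    refine ray_tendsto.frequently (Eventually.frequently (Eventually.of_forall fun k => ?_))
    exact hs (5 + 1 / ((k : ℝ) + 1)) (by
      have : (0 : ℝ) < 1 / ((k : ℝ) + 1) := by positivity
      linarith)
  have hzH : z ∈ H := by
    rw [hH]
    exact hz
  exact hf.eqOn_of_preconnected_of_frequently_eq ha hHc h5 hfr hzH

end Pool.Agent.K3h16.MI
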