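import Pool.Agent.K3h16.MI.Main
import Pool.Agent.K3h16.MI.Ident

/-!
Moebius invariance of the nu-weighted energy (MP_34b615_gt): assembly with existence.
-/

open MeasureTheory Set Filter Topology
open scoped ContDiff

namespace Pool.Agent.K3h16.MI

theorem pm_ne {m : ℕ} {z : ℂ} (hz : -(m : ℝ) < z.re) : pm m z ≠ 0 := by
  unfold pm
  rw [Finset.prod_ne_zero_iff]
  intro j _ h
  have h1 := congrArg Complex.re h
  simp only [Complex.add_re, Complex.natCast_re, Complex.zero_re] at h1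
  have : (0 : ℝ) ≤ j := Nat.cast_nonneg j
  linarith

theorem real_energy {m n : ℕ} (e : E n → Fin m → E n) (v : Measure (E n)) (s : ℝ) :
      ∫ x, ∫ y, (pairing (e x) (e y) : ℂ) * (‖x - y‖ : ℂ) ^ (s : ℂ) ∂v ∂v =
        J 0 e v (fun _ _ => 1) s := by
  unfold J
  congr 1
  ext x
  congr 1
  ext y
  rw [kdet_zero, one_mul, Complex.ofReal_mul, Complex.ofReal_cpow (norm_nonneg _)]

theorem neg_lt_of {m : ℕ} {s : ℝ} (hs : 4 < s) : -(m : ℝ) < (s : ℂ).re := by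
  have : (0 : ℝ) ≤ m := Nat.cast_nonneg m
  simp only [Complex.ofReal_re]
  linarith

/-- Existence of the continuation on the half plane. -/
theorem exists_energy (hGOODM : S_GOODM) (hHOLM : S_HOLM) {m n : ℕ} (hm : 1 ≤ m) (M : Set (E n))
    (e : E n → Fin m → E n) (v : Measure (E n)) (hM : IsOCS M e v) :
    ∃ B : ℂ → ℂ, (∀ z : ℂ, -(2 * (m : ℝ)) - 1 < z.re → MeromorphicAt B z) ∧
      ∀ z : ℂ, -(m : ℝ) < z.re →
        B z = ∫ x, ∫ y, (pairing (e x) (e y) : ℂ) * (‖x - y‖ : ℂ) ^ z ∂v ∂v := by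
  obtain ⟨A, a1, a2, a3⟩ := hGOODM m n M e v hm hM univ (fun _ _ _ => 1) isOpen_univ
    (subset_univ _) contDiffOn_const (fun x _ y _ => differentiable_const _) 0
  obtain ⟨F, hF⟩ : ∃ F : ℂ → ℂ, F = fun z : ℂ =>
    ∫ x, ∫ y, (pairing (e x) (e y) : ℂ) * (‖x - y‖ : ℂ) ^ z ∂v ∂v := ⟨_, rfl⟩
  have hFd : DifferentiableOn ℂ F {z : ℂ | -(m : ℝ) < z.re} := by
    rw [hF]
    exact hHOLM m n M e v hm hM
  have hm0 : (0 : ℝ) ≤ m := Nat.cast_nonneg m
  have hAd : DifferentiableOn ℂ A {z : ℂ | -(m : ℝ) < z.re} :=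
    a1.mono (fun z (hz : -(m : ℝ) < z.re) => show -(2 * (m : ℝ)) - 1 < z.re by linarith)
  have hs : ∀ s : ℝ, 4 < s → pm m s * F s = A s := by
    intro s hs
    rw [← a3 s hs, hF]
    show pm m s * (∫ x, ∫ y, (pairing (e x) (e y) : ℂ) * (‖x - y‖ : ℂ) ^ (s : ℂ) ∂v ∂v) = _
    rw [real_energy]
  have hid := t_IDENT3 m A F hAd hFd hs
  refine ⟨fun z => if -(m : ℝ) < z.re then F z else A z / pm m z, fun z hz => ?_, fun z hz => ?_⟩
  · have hopen : IsOpen {z : ℂ | -(2 * (m : ℝ)) - 1 < z.re} :=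
      isOpen_lt continuous_const Complex.continuous_re
    have h1 : MeromorphicAt (fun z => A z / pm m z) z :=
      ((a1.analyticAt (hopen.mem_nhds hz)).meromorphicAt).div
        ((differentiable_pm m).analyticAt z).meromorphicAt
    refine h1.congr ?_
    refine (Eventually.of_forall fun w => ?_)
    show A w / pm m w = if -(m : ℝ) < w.re then F w else A w / pm m w
    split_ifs with hw
    · rw [div_eq_iff (pm_ne hw), ← hid w hw, mul_comm]
    · rfl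
  · show (if -(m : ℝ) < z.re then F z else A z / pm m z) = _
    rw [if_pos hz, hF]

/-- The invariance. -/
theorem invariance (hPHI : S_PHI) (hCONF1 : S_CONF1) (hGOODM : S_GOODM) (hMASTER : S_MASTER)
    {m n : ℕ} (hm : 1 ≤ m) (M : Set (E n))
    (e e' : E n → Fin m → E n) (v v' : Measure (E n)) (T : E n → E n)
    (hM : IsOCS M e v) (hT : IsMoebius T M) (hM' : IsOCS (T '' M) e' v')
    (hor : ∀ x ∈ M, SameOr (e' (T x)) (fun i => fderiv ℝ T x (e x i))) :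
    ∃ w : ℂ, (∀ B : ℂ → ℂ, (∀ z : ℂ, -(2 * (m : ℝ)) - 1 < z.re → MeromorphicAt B z) →
        (∀ z : ℂ, -(m : ℝ) < z.re →
          B z = ∫ x, ∫ y, (pairing (e x) (e y) : ℂ) * (‖x - y‖ : ℂ) ^ z ∂v ∂v) →
        (Odd m → Tendsto B (𝓝[≠] (-(2 * (m : ℂ)))) (𝓝 w)) ∧
        (Even m → Tendsto (fun z => (z + 2 * m) * B z) (𝓝[≠] (-(2 * (m : ℂ)))) (𝓝 w))) ∧
      (∀ B : ℂ → ℂ, (∀ z : ℂ, -(2 * (m : ℝ)) - 1 < z.re → MeromorphicAt B z) →
        (∀ z : ℂ, -(m : ℝ) < z.re →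
          B z = ∫ x, ∫ y, (pairing (e' x) (e' y) : ℂ) * (‖x - y‖ : ℂ) ^ z ∂v' ∂v') →
        (Odd m → Tendsto B (𝓝[≠] (-(2 * (m : ℂ)))) (𝓝 w)) ∧
        (Even m → Tendsto (fun z => (z + 2 * m) * B z) (𝓝[≠] (-(2 * (m : ℂ)))) (𝓝 w))) := by
  obtain ⟨φ, hφ, hφe⟩ := hPHI
  obtain ⟨ρ, U, hMU, hC⟩ := hCONF1 n T M hT
  have hlog : ContDiffOn ℝ ∞ (fun x => Real.log (ρ x)) U :=
    hC.smoothρ.log (fun x hx => (hC.pos x hx).ne')
  set O : Set (ℂ × E n × E n) := univ ×ˢ (U ×ˢ U) with hO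
  have hlog1 : ContDiffOn ℝ ∞ (fun p : ℂ × E n × E n => Real.log (ρ p.2.1)) O :=
    hlog.comp (contDiff_fst.comp contDiff_snd).contDiffOn (fun p hp => hp.2.1)
  have hlog2 : ContDiffOn ℝ ∞ (fun p : ℂ × E n × E n => Real.log (ρ p.2.2)) O :=
    hlog.comp (contDiff_snd.comp contDiff_snd).contDiffOn (fun p hp => hp.2.2)
  have hS : ContDiffOn ℝ ∞ (fun p : ℂ × E n × E n =>
      (((Real.log (ρ p.2.1) + Real.log (ρ p.2.2)) / 2 : ℝ) : ℂ)) O :=
    Complex.ofRealCLM.contDiff.comp_contDiffOn ((hlog1.add hlog2).div_const 2)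
  have hφs : ContDiff ℝ ∞ φ := (hφ.contDiff (n := ∞)).restrict_scalars ℝ
  have hz : ContDiffOn ℝ ∞ (fun p : ℂ × E n × E n => p.1) O := contDiff_fst.contDiffOn
  have hg0 : Good m (fun s => J 0 e v (fun _ _ => 1) s) :=
    hGOODM m n M e v hm hM U (fun _ _ _ => 1) hC.isOpen hMU contDiffOn_const
      (fun x _ y _ => differentiable_const _) 0
  have hg1 : Good m (fun s => J 0 e v (fun x _ => (Real.log (ρ x) : ℂ)) s) :=
    hGOODM m n M e v hm hM U (fun _ x _ => (Real.log (ρ x) : ℂ)) hC.isOpen hMU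
      (Complex.ofRealCLM.contDiff.comp_contDiffOn hlog1)
      (fun x _ y _ => differentiable_const _) 0
  have hg2 : Good m (fun s => J (-2) e v (fun x y => (s : ℂ) *
      ((((Real.log (ρ x) + Real.log (ρ y)) / 2 : ℝ) : ℂ)) ^ 2 *
          φ (((s : ℂ) + 2 * m) * (((Real.log (ρ x) + Real.log (ρ y)) / 2 : ℝ) : ℂ))) s) := by
    refine hGOODM m n M e v hm hM U (fun z x y => z *
      ((((Real.log (ρ x) + Real.log (ρ y)) / 2 : ℝ) : ℂ)) ^ 2 *
          φ ((z + 2 * m) * (((Real.log (ρ x) + Real.log (ρ y)) / 2 : ℝ) : ℂ))) hC.isOpen hMU ?_ ?_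
      (-2)
    · exact (hz.mul (hS.pow 2)).mul
        (hφs.comp_contDiffOn ((hz.add contDiffOn_const).mul hS))
    · intro x _ y _
      exact (differentiable_id.mul_const _).mul
        (hφ.comp ((differentiable_id.add_const _).mul_const _))
  obtain ⟨A, a1, a2, a3⟩ := hg0
  obtain ⟨D, d1, d2, d3⟩ := hg1.add hg2
  refine ⟨wval m A, fun B hBm hB => ?_, fun B' hBm' hB' => ?_⟩
  · have e1 : ∀ s : ℝ, 4 < s → pm m s * B s = A s := by
      intro s hs
      rw [hB s (neg_lt_of hs), real_energy]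
      exact a3 s hs
    refine limit (D := fun _ => 0) a1 (differentiableOn_const _) a2 (fun _ => rfl) ?_
    filter_upwards [t_IDENT2 m A B hBm a1 e1] with z hz
    rw [hz, mul_zero, add_zero]
  · have e2 : ∀ s : ℝ, 4 < s → pm m s * B' s = A s + ((s : ℂ) + 2 * m) * D s := by
      intro s hs
      rw [hB' s (neg_lt_of hs), real_energy,
        hMASTER m n M e v e' v' T ρ U hM hM' hMU hC hor φ hφ hφe s hs, ← a3 s hs, ← d3 s hs]
      ring
    have hAD : DifferentiableOn ℂ (fun z => A z + (z + 2 * (m : ℂ)) * D z)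
        {z : ℂ | -(2 * (m : ℝ)) - 1 < z.re} :=
      a1.add (((differentiable_id.add_const _).differentiableOn).mul d1)
    exact limit a1 d1 a2 d2 (t_IDENT2 m (fun z => A z + (z + 2 * (m : ℂ)) * D z) B' hBm' hAD e2)

end Pool.Agent.K3h16.MI
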