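import Pool.Agent.K3h91.MI.Conf1
import Pool.Agent.K3h90.MI.Conf2
import Pool.Agent.K3h92.MI.Conf3
import Pool.Agent.K3h40.MI.KD
import Pool.Agent.K3h40.MI.Polar
import Pool.Agent.K3h79.MI.TMU
import Pool.Agent.K3h68.MI.TParam
import Pool.Agent.K3h87.MI.FIN
import Pool.Agent.K3h91.MI.Cont
import Pool.Agent.K3h58.MI.Pou
import Pool.Agent.K3h95.MI.CHI
import Pool.Agent.K3h13.MI.Piola
import Pool.Agent.K3h35.MI.Stokes
import Pool.Agent.K3h69.MI.EXACT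
import Pool.Agent.K3h4.MI.Tint
import Pool.Agent.K3h85.MI.Master
import Pool.Agent.K3h7.MI.Phi
import Pool.Agent.K3h49.MI.IBP
import Pool.Agent.K3h49.MI.HAD
import Pool.Agent.K3h52.MI.DT
import Pool.Agent.K3h52.MI.PG
import Pool.Agent.K3h24.MI.HOL
import Pool.Agent.K3h61.MI.On
import Pool.Agent.K3h3.MI.GoodM
import Pool.Agent.K3h48.MI.OFF
import Pool.Agent.K3h16.MI.Main2

/-!
Moebius invariance of the nu-weighted energy (MP_34b615_gt): all bricks together.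
-/

namespace Pool.Agent.K3h16.MI

theorem p_KD : S_KD := Pool.Agent.K3h40.MI.t_KD

theorem p_KD1 : S_KD1 := Pool.Agent.K3h40.MI.t_KD1

theorem p_POU : S_POU := Pool.Agent.K3h58.MI.t_POU

theorem p_CHI : S_CHI := Pool.Agent.K3h95.MI.t_CHI

theorem p_FIN : S_FIN := Pool.Agent.K3h87.MI.t_FIN

theorem p_CONT : S_CONT := Pool.Agent.K3h91.MI.t_CONT p_KD

theorem p_CONT1 : S_CONT1 := Pool.Agent.K3h91.MI.t_CONT1 p_KD1

theorem p_TMU : S_TMU :=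
  Pool.Agent.K3h79.MI.t_TMU p_KD Pool.Agent.K3h90.MI.t_CONF2 Pool.Agent.K3h92.MI.t_CONF3

theorem p_TPARAM : S_TPARAM := Pool.Agent.K3h68.MI.t_TPARAM Pool.Agent.K3h90.MI.t_CONF2

theorem p_STOKES : S_STOKES :=
  Pool.Agent.K3h35.MI.t_STOKES p_POU p_CHI p_KD1 Pool.Agent.K3h13.MI.t_PIOLA

theorem p_EXACT : S_EXACT := Pool.Agent.K3h69.MI.t_EXACT p_STOKES p_CONT1 p_FIN

theorem p_TINT1 : S_TINT1 := Pool.Agent.K3h4.MI.t_TINT1 p_POU p_CHI p_TPARAM p_FIN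

theorem p_TINT2 : S_TINT2 := Pool.Agent.K3h4.MI.t_TINT2 p_TINT1 p_FIN

theorem p_MASTER : S_MASTER := Pool.Agent.K3h85.MI.t_MASTER p_EXACT p_TINT2 p_TMU p_CONT p_FIN

theorem p_PG : S_PG :=
  Pool.Agent.K3h52.MI.t_PG Pool.Agent.K3h49.MI.t_IBP Pool.Agent.K3h52.MI.t_DT
    Pool.Agent.K3h24.MI.t_HOL

theorem p_ON : S_ON :=
  Pool.Agent.K3h61.MI.t_ON Pool.Agent.K3h40.MI.t_POLAR Pool.Agent.K3h49.MI.t_HAD p_PG

theorem p_OFF : S_OFF := Pool.Agent.K3h48.MI.t_OFF p_CONT p_FIN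

theorem p_GOODM : S_GOODM :=
  Pool.Agent.K3h3.MI.t_GOODM p_POU p_CHI p_KD p_CONT p_FIN p_ON p_OFF

theorem p_PHI : S_PHI := Pool.Agent.K3h7.MI.t_PHI

theorem p_CONF1 : S_CONF1 := Pool.Agent.K3h91.MI.t_CONF1

end Pool.Agent.K3h16.MI
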