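import Mathlib

/-!
Moebius invariance of the nu-weighted energy (MP_34b615_gt): definitions.
-/

open MeasureTheory Set Filter Topology
open scoped ContDiff

namespace Pool.Agent.K3h16.MI

/-- `ℝⁿ`. -/
abbrev E (n : ℕ) := EuclideanSpace ℝ (Fin n)

/-- The partial derivative `∂_b γ (u)`. -/
noncomputable def pd {m n : ℕ} (γ : E m → E n) (u : E m) (b : Fin m) : E n :=
  fderiv ℝ γ u (EuclideanSpace.single b 1)

/-- The inner product `⟨Π, Π'⟩ = det (⟨v_i, v'_j⟩)` of two oriented planes with bases `v`, `v'`. -/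
noncomputable def pairing {m n : ℕ} (v w : Fin m → E n) : ℝ :=
  Matrix.det (Matrix.of fun i j => inner ℝ (v i) (w j))

/-- `√ det (⟨∂_i γ, ∂_j γ⟩)`, the density of the volume element in the parameter `u`. -/
noncomputable def jac {m n : ℕ} (γ : E m → E n) (u : E m) : ℝ :=
  √ (pairing (pd γ u) (pd γ u))

/-- `γ : ℝᵐ → M` is a smooth parametrization of a relatively open subset of `M`. -/
structure IsParam {m n : ℕ} (M : Set (E n)) (γ : E m → E n) : Prop where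
  smooth : ContDiff ℝ ∞ γ
  embedding : Topology.IsEmbedding γ
  immersion : ∀ u, Function.Injective (fderiv ℝ γ u)
  open_range : ∃ V : Set (E n), IsOpen V ∧ Set.range γ = M ∩ V

/-- The basis `w` of the same space as the frame `v` has the same orientation: `w = v · A` with
`det A > 0`. -/
def SameOr {m n : ℕ} (v w : Fin m → E n) : Prop :=
  ∃ A : Matrix (Fin m) (Fin m) ℝ, 0 < A.det ∧ ∀ b, w b = ∑ c, A c b • v c

/-- `M` is an oriented closed `m`-dimensional submanifold of `ℝⁿ`, `e x` is a positively oriented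
orthonormal basis of `T_x M` for `x` in `M`, and `v` is the volume element of `M`. -/
structure IsOCS {m n : ℕ} (M : Set (E n)) (e : E n → Fin m → E n) (v : Measure (E n)) :
    Prop where
  compact : IsCompact M
  orthonormal : ∀ x ∈ M, Orthonormal ℝ (e x)
  charts : ∀ x ∈ M, ∃ γ : E m → E n, IsParam M γ ∧ x ∈ range γ ∧ ∀ u, SameOr (e (γ u)) (pd γ u)
  vol_compl : v Mᶜ = 0
  vol_param : ∀ γ : E m → E n, IsParam M γ →
    v.restrict (range γ) = ((volume : Measure (E m)).withDensity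
      fun u => ENNReal.ofReal (jac γ u)).map γ

/-- `T` is a Moebius transformation of `ℝⁿ ∪ {∞}` that sends no point of `M` to infinity: it is a
similarity, or a similarity composed with the inversion in a sphere with centre `a` not in `M`. -/
def IsMoebius {n : ℕ} (T : E n → E n) (M : Set (E n)) : Prop :=
  ∃ (A : E n ≃ₗᵢ[ℝ] E n) (a b : E n) (α : ℝ), 0 < α ∧
    ((∀ x, T x = b + α • A x) ∨ (a ∉ M ∧ ∀ x, T x = b + (α / ‖x - a‖ ^ 2) • A (x - a)))

/-- `det (⟨v_i, w_j⟩ + α ⟨v_i, r⟩ ⟨r, w_j⟩ / |r|²)`. -/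
noncomputable def kdet {m n : ℕ} (α : ℝ) (v w : Fin m → E n) (r : E n) : ℝ :=
  Matrix.det (Matrix.of fun i j =>
    inner ℝ (v i) (w j) + α * (inner ℝ (v i) r * inner ℝ r (w j) / ‖r‖ ^ 2))

/-- `∬ c(x,y) kdet_α |x-y|^s dv dv`. -/
noncomputable def J {m n : ℕ} (α : ℝ) (e : E n → Fin m → E n) (v : Measure (E n))
    (c : E n → E n → ℂ) (s : ℝ) : ℂ :=
  ∫ x, ∫ y, c x y * ((kdet α (e x) (e y) (x - y) * ‖x - y‖ ^ s : ℝ) : ℂ) ∂v ∂v

/-- The polynomial `(z+m)(z+m+1)⋯(z+2m)`. -/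
noncomputable def pm (m : ℕ) (z : ℂ) : ℂ := ∏ j ∈ Finset.range (m + 1), (z + m + j)

/-- `pm · J` extends to a holomorphic function `A` on `Re z > -2m-1`, with `A(-2m) = 0` for odd
`m`. -/
def Good (m : ℕ) (J : ℝ → ℂ) : Prop :=
  ∃ A : ℂ → ℂ, DifferentiableOn ℂ A {z : ℂ | -(2 * (m : ℝ)) - 1 < z.re} ∧
    (Odd m → A (-(2 * (m : ℂ))) = 0) ∧ ∀ s : ℝ, 4 < s → pm m s * J s = A s

/-- Conformal data near a set: `|Tx - Ty|² = ρ(x) ρ(y) |x - y|²` on an open set `U`. -/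
structure Conf {n : ℕ} (T : E n → E n) (ρ : E n → ℝ) (U : Set (E n)) : Prop where
  isOpen : IsOpen U
  smoothT : ContDiffOn ℝ ∞ T U
  smoothρ : ContDiffOn ℝ ∞ ρ U
  pos : ∀ x ∈ U, 0 < ρ x
  dist : ∀ x ∈ U, ∀ y ∈ U, ‖T x - T y‖ ^ 2 = ρ x * ρ y * ‖x - y‖ ^ 2

end Pool.Agent.K3h16.MI
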