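import Pool.Agent.K3h16.MI.Stm

/-!
Moebius invariance of the nu-weighted energy (MP_34b615_gt): the last step (limits at `-2m`).
-/

open MeasureTheory Set Filter Topology
open scoped ContDiff

namespace Pool.Agent.K3h16.MI

/-- The product without the factor `z + 2m`. -/
noncomputable def pt (m : ℕ) (z : ℂ) : ℂ := ∏ j ∈ Finset.range m, (z + m + j)

theorem pm_eq (m : ℕ) (z : ℂ) : pm m z = pt m z * (z + 2 * m) := by
  unfold pm pt
  rw [Finset.prod_range_succ]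
  congr 1
  ring

theorem pt_ne (m : ℕ) : pt m (-(2 * (m : ℂ))) ≠ 0 := by
  unfold pt
  rw [Finset.prod_ne_zero_iff]
  intro j hj h
  have hj' : j < m := Finset.mem_range.mp hj
  have : ((j : ℂ)) = m := by linear_combination h
  have := Nat.cast_injective this
  omega

theorem pt_cont (m : ℕ) : Continuous (pt m) := by
  unfold pt
  fun_prop

/-- The common value of `W`. -/
noncomputable def wval (m : ℕ) (A : ℂ → ℂ) : ℂ :=
  if Even m then A (-(2 * (m : ℂ))) / pt m (-(2 * (m : ℂ)))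
  else deriv A (-(2 * (m : ℂ))) / pt m (-(2 * (m : ℂ)))

theorem limit {m : ℕ} {A D B : ℂ → ℂ}
    (hA : DifferentiableOn ℂ A {z : ℂ | -(2 * (m : ℝ)) - 1 < z.re})
    (hD : DifferentiableOn ℂ D {z : ℂ | -(2 * (m : ℝ)) - 1 < z.re})
    (hA0 : Odd m → A (-(2 * (m : ℂ))) = 0) (hD0 : Odd m → D (-(2 * (m : ℂ))) = 0)
    (hB : ∀ᶠ z in 𝓝[≠] (-(2 * (m : ℂ))), pm m z * B z = A z + (z + 2 * m) * D z) :
      (Odd m → Tendsto B (𝓝[≠] (-(2 * (m : ℂ)))) (𝓝 (wval m A))) ∧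
        (Even m → Tendsto (fun z => (z + 2 * m) * B z) (𝓝[≠] (-(2 * (m : ℂ))))
          (𝓝 (wval m A))) := by
  set z₀ : ℂ := -(2 * (m : ℂ)) with hz₀
  have hopen : IsOpen {z : ℂ | -(2 * (m : ℝ)) - 1 < z.re} :=
    isOpen_lt continuous_const Complex.continuous_re
  have hmem : z₀ ∈ {z : ℂ | -(2 * (m : ℝ)) - 1 < z.re} := by
    simp [hz₀]
  have hAd : DifferentiableAt ℂ A z₀ := hA.differentiableAt (hopen.mem_nhds hmem)
  have hDd : DifferentiableAt ℂ D z₀ := hD.differentiableAt (hopen.mem_nhds hmem)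
  have hAt : Tendsto A (𝓝[≠] z₀) (𝓝 (A z₀)) := hAd.continuousAt.tendsto.mono_left nhdsWithin_le_nhds
  have hDt : Tendsto D (𝓝[≠] z₀) (𝓝 (D z₀)) := hDd.continuousAt.tendsto.mono_left nhdsWithin_le_nhds
  have hpt : Tendsto (pt m) (𝓝[≠] z₀) (𝓝 (pt m z₀)) :=
    (pt_cont m).continuousAt.tendsto.mono_left nhdsWithin_le_nhds
  have hp0 : pt m z₀ ≠ 0 := pt_ne m
  have hpe : ∀ᶠ z in 𝓝[≠] z₀, pt m z ≠ 0 := hpt.eventually_ne hp0
  have hne : ∀ᶠ z in 𝓝[≠] z₀, z + 2 * (m : ℂ) ≠ 0 := by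
    filter_upwards [self_mem_nhdsWithin] with z hz h
    apply hz
    simp only [mem_singleton_iff, hz₀]
    linear_combination h
  have hlin : Tendsto (fun z : ℂ => z + 2 * (m : ℂ)) (𝓝[≠] z₀) (𝓝 0) := by
    have h1 : Tendsto (fun z : ℂ => z + 2 * (m : ℂ)) (𝓝 z₀) (𝓝 (z₀ + 2 * m)) :=
      (continuous_id.add continuous_const).tendsto z₀
    have h2 : z₀ + 2 * (m : ℂ) = 0 := by rw [hz₀]; ring
    rw [h2] at h1
    exact h1.mono_left nhdsWithin_le_nhds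
  rcases Nat.even_or_odd m with hm | hm
  · have hno : ¬ Odd m := Nat.not_odd_iff_even.mpr hm
    refine ⟨fun h => absurd h hno, fun _ => ?_⟩
    rw [wval, if_pos hm, ← hz₀]
    have h1 : Tendsto (fun z => (A z + (z + 2 * (m : ℂ)) * D z) / pt m z) (𝓝[≠] z₀)
        (𝓝 ((A z₀ + 0 * D z₀) / pt m z₀)) := (hAt.add (hlin.mul hDt)).div hpt hp0
    rw [zero_mul, add_zero] at h1
    refine h1.congr' ?_
    filter_upwards [hB, hpe] with z hz hz1
    rw [pm_eq] at hz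
    rw [div_eq_iff hz1, ← hz]
    ring
  · have hne' : ¬ Even m := Nat.not_even_iff_odd.mpr hm
    have hslope : Tendsto (fun z => A z / (z + 2 * (m : ℂ))) (𝓝[≠] z₀) (𝓝 (deriv A z₀)) := by
      have h1 := hAd.hasDerivAt.tendsto_slope
      refine h1.congr' ?_
      filter_upwards with z
      rw [slope_def_field, hA0 hm, sub_zero, hz₀, sub_neg_eq_add]
    refine ⟨fun _ => ?_, fun h => absurd h hne'⟩
    rw [wval, if_neg hne', ← hz₀]
    have h1 : Tendsto (fun z => (A z / (z + 2 * (m : ℂ)) + D z) / pt m z) (𝓝[≠] z₀)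
        (𝓝 ((deriv A z₀ + D z₀) / pt m z₀)) := (hslope.add hDt).div hpt hp0
    rw [hD0 hm, add_zero] at h1
    refine h1.congr' ?_
    filter_upwards [hB, hpe, hne] with z hz hz1 hz2
    rw [pm_eq] at hz
    rw [div_eq_iff hz1]
    field_simp
    rw [← hz]
    ring

theorem limits {m : ℕ} {A D B B' : ℂ → ℂ}
    (hA : DifferentiableOn ℂ A {z : ℂ | -(2 * (m : ℝ)) - 1 < z.re})
    (hD : DifferentiableOn ℂ D {z : ℂ | -(2 * (m : ℝ)) - 1 < z.re})
    (hA0 : Odd m → A (-(2 * (m : ℂ))) = 0) (hD0 : Odd m → D (-(2 * (m : ℂ))) = 0)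
    (hB : ∀ᶠ z in 𝓝[≠] (-(2 * (m : ℂ))), pm m z * B z = A z)
    (hB' : ∀ᶠ z in 𝓝[≠] (-(2 * (m : ℂ))), pm m z * B' z = A z + (z + 2 * m) * D z) :
    ∃ w : ℂ,
      ((Odd m → Tendsto B (𝓝[≠] (-(2 * (m : ℂ)))) (𝓝 w)) ∧
        (Even m → Tendsto (fun z => (z + 2 * m) * B z) (𝓝[≠] (-(2 * (m : ℂ)))) (𝓝 w))) ∧
      ((Odd m → Tendsto B' (𝓝[≠] (-(2 * (m : ℂ)))) (𝓝 w)) ∧
        (Even m → Tendsto (fun z => (z + 2 * m) * B' z) (𝓝[≠] (-(2 * (m : ℂ)))) (𝓝 w))) := by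
  set z₀ : ℂ := -(2 * (m : ℂ)) with hz₀
  have hopen : IsOpen {z : ℂ | -(2 * (m : ℝ)) - 1 < z.re} :=
    isOpen_lt continuous_const Complex.continuous_re
  have hmem : z₀ ∈ {z : ℂ | -(2 * (m : ℝ)) - 1 < z.re} := by
    simp [hz₀]
  have hAd : DifferentiableAt ℂ A z₀ := hA.differentiableAt (hopen.mem_nhds hmem)
  have hDd : DifferentiableAt ℂ D z₀ := hD.differentiableAt (hopen.mem_nhds hmem)
  have hAt : Tendsto A (𝓝[≠] z₀) (𝓝 (A z₀)) := hAd.continuousAt.tendsto.mono_left nhdsWithin_le_nhds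
  have hDt : Tendsto D (𝓝[≠] z₀) (𝓝 (D z₀)) := hDd.continuousAt.tendsto.mono_left nhdsWithin_le_nhds
  have hpt : Tendsto (pt m) (𝓝[≠] z₀) (𝓝 (pt m z₀)) :=
    (pt_cont m).continuousAt.tendsto.mono_left nhdsWithin_le_nhds
  have hp0 : pt m z₀ ≠ 0 := pt_ne m
  have hpe : ∀ᶠ z in 𝓝[≠] z₀, pt m z ≠ 0 := hpt.eventually_ne hp0
  have hne : ∀ᶠ z in 𝓝[≠] z₀, z + 2 * (m : ℂ) ≠ 0 := by
    filter_upwards [self_mem_nhdsWithin] with z hz h
    apply hz
    simp only [mem_singleton_iff, hz₀]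
    linear_combination h
  have hlin : Tendsto (fun z : ℂ => z + 2 * (m : ℂ)) (𝓝[≠] z₀) (𝓝 0) := by
    have h1 : Tendsto (fun z : ℂ => z + 2 * (m : ℂ)) (𝓝 z₀) (𝓝 (z₀ + 2 * m)) :=
      (continuous_id.add continuous_const).tendsto z₀
    have h2 : z₀ + 2 * (m : ℂ) = 0 := by rw [hz₀]; ring
    rw [h2] at h1
    exact h1.mono_left nhdsWithin_le_nhds
  rcases Nat.even_or_odd m with hm | hm
  · have hno : ¬ Odd m := Nat.not_odd_iff_even.mpr hm
    refine ⟨A z₀ / pt m z₀, ⟨fun h => absurd h hno, fun _ => ?_⟩, ⟨fun h => absurd h hno, fun _ => ?_⟩⟩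
    · refine (hAt.div hpt hp0).congr' ?_
      filter_upwards [hB, hpe] with z hz hz1
      rw [pm_eq] at hz
      simp only [Pi.div_apply]
      rw [div_eq_iff hz1, ← hz]
      ring
    · have h1 : Tendsto (fun z => (A z + (z + 2 * (m : ℂ)) * D z) / pt m z) (𝓝[≠] z₀)
          (𝓝 ((A z₀ + 0 * D z₀) / pt m z₀)) := (hAt.add (hlin.mul hDt)).div hpt hp0
      rw [zero_mul, add_zero] at h1
      refine h1.congr' ?_
      filter_upwards [hB', hpe] with z hz hz1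
      rw [pm_eq] at hz
      rw [div_eq_iff hz1, ← hz]
      ring
  · have hne' : ¬ Even m := Nat.not_even_iff_odd.mpr hm
    have hslope : Tendsto (fun z => A z / (z + 2 * (m : ℂ))) (𝓝[≠] z₀) (𝓝 (deriv A z₀)) := by
      have h1 := hAd.hasDerivAt.tendsto_slope
      refine h1.congr' ?_
      filter_upwards with z
      rw [slope_def_field, hA0 hm, sub_zero, hz₀, sub_neg_eq_add]
    refine ⟨deriv A z₀ / pt m z₀, ⟨fun _ => ?_, fun h => absurd h hne'⟩,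
      ⟨fun _ => ?_, fun h => absurd h hne'⟩⟩
    · refine (hslope.div hpt hp0).congr' ?_
      filter_upwards [hB, hpe, hne] with z hz hz1 hz2
      rw [pm_eq] at hz
      simp only [Pi.div_apply]
      rw [div_eq_iff hz1, div_eq_iff hz2, ← hz]
      ring
    · have h1 : Tendsto (fun z => (A z / (z + 2 * (m : ℂ)) + D z) / pt m z) (𝓝[≠] z₀)
          (𝓝 ((deriv A z₀ + D z₀) / pt m z₀)) := (hslope.add hDt).div hpt hp0
      rw [hD0 hm, add_zero] at h1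
      refine h1.congr' ?_
      filter_upwards [hB', hpe, hne] with z hz hz1 hz2
      rw [pm_eq] at hz
      rw [div_eq_iff hz1]
      field_simp
      rw [← hz]
      ring

end Pool.Agent.K3h16.MI
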