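import Pool.Agent.K3h16.MI.Fin

/-!
Moebius invariance of the nu-weighted energy (MP_34b615_gt): assembly.
-/

open MeasureTheory Set Filter Topology
open scoped ContDiff

namespace Pool.Agent.K3h16.MI

theorem Good.add {m : ℕ} {J₁ J₂ : ℝ → ℂ} (h₁ : Good m J₁) (h₂ : Good m J₂) :
    Good m (fun s => J₁ s + J₂ s) := by
  obtain ⟨A₁, a1, a2, a3⟩ := h₁
  obtain ⟨A₂, b1, b2, b3⟩ := h₂
  refine ⟨fun z => A₁ z + A₂ z, a1.add b1, fun h => ?_, fun s hs => ?_⟩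
  · simp only [a2 h, b2 h, add_zero]
  · simp only [mul_add, a3 s hs, b3 s hs]

theorem kdet_zero {m n : ℕ} (v w : Fin m → E n) (r : E n) : kdet 0 v w r = pairing v w := by
  unfold kdet pairing
  simp

theorem main_thm (hPHI : S_PHI) (hCONF1 : S_CONF1) (hGOODM : S_GOODM) (hMASTER : S_MASTER)
    (hIDENT : S_IDENT) {m n : ℕ} (hm : 1 ≤ m) (M : Set (E n))
    (e e' : E n → Fin m → E n) (v v' : Measure (E n)) (T : E n → E n)
    (hM : IsOCS M e v) (hT : IsMoebius T M) (hM' : IsOCS (T '' M) e' v')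
    (hor : ∀ x ∈ M, SameOr (e' (T x)) (fun i => fderiv ℝ T x (e x i)))
    (B B' : ℂ → ℂ) (hBm : ∀ z, MeromorphicAt B z) (hBm' : ∀ z, MeromorphicAt B' z)
    (hB : ∀ z : ℂ, -(m : ℝ) < z.re →
      B z = ∫ x, ∫ y, (pairing (e x) (e y) : ℂ) * (‖x - y‖ : ℂ) ^ z ∂v ∂v)
    (hB' : ∀ z : ℂ, -(m : ℝ) < z.re →
      B' z = ∫ x, ∫ y, (pairing (e' x) (e' y) : ℂ) * (‖x - y‖ : ℂ) ^ z ∂v' ∂v') :
    ∃ w : ℂ,
      ((Odd m → Tendsto B (𝓝[≠] (-(2 * (m : ℂ)))) (𝓝 w)) ∧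
        (Even m → Tendsto (fun z => (z + 2 * m) * B z) (𝓝[≠] (-(2 * (m : ℂ)))) (𝓝 w))) ∧
      ((Odd m → Tendsto B' (𝓝[≠] (-(2 * (m : ℂ)))) (𝓝 w)) ∧
        (Even m → Tendsto (fun z => (z + 2 * m) * B' z) (𝓝[≠] (-(2 * (m : ℂ)))) (𝓝 w))) := by
  obtain ⟨φ, hφ, hφe⟩ := hPHI
  obtain ⟨ρ, U, hMU, hC⟩ := hCONF1 n T M hT
  have hreal : ∀ (e : E n → Fin m → E n) (v : Measure (E n)) (s : ℝ),
      ∫ x, ∫ y, (pairing (e x) (e y) : ℂ) * (‖x - y‖ : ℂ) ^ (s : ℂ) ∂v ∂v =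
        J 0 e v (fun _ _ => 1) s := by
    intro e v s
    unfold J
    congr 1
    ext x
    congr 1
    ext y
    rw [kdet_zero, one_mul, Complex.ofReal_mul, Complex.ofReal_cpow (norm_nonneg _)]
  have hneg : ∀ s : ℝ, 4 < s → -(m : ℝ) < (s : ℂ).re := by
    intro s hs
    have : (0 : ℝ) ≤ m := Nat.cast_nonneg m
    simp only [Complex.ofReal_re]
    linarith
  have hBs : ∀ s : ℝ, 4 < s → B s = J 0 e v (fun _ _ => 1) s := by
    intro s hs
    rw [hB s (hneg s hs), hreal]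
  have hBs' : ∀ s : ℝ, 4 < s → B' s = J 0 e' v' (fun _ _ => 1) s := by
    intro s hs
    rw [hB' s (hneg s hs), hreal]
  have hlog : ContDiffOn ℝ ∞ (fun x => Real.log (ρ x)) U :=
    hC.smoothρ.log (fun x hx => (hC.pos x hx).ne')
  set O : Set (ℂ × E n × E n) := univ ×ˢ (U ×ˢ U) with hO
  have hlog1 : ContDiffOn ℝ ∞ (fun p : ℂ × E n × E n => Real.log (ρ p.2.1)) O :=
    hlog.comp (contDiff_fst.comp contDiff_snd).contDiffOn (fun p hp => hp.2.1)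
  have hlog2 : ContDiffOn ℝ ∞ (fun p : ℂ × E n × E n => Real.log (ρ p.2.2)) O :=
    hlog.comp (contDiff_snd.comp contDiff_snd).contDiffOn (fun p hp => hp.2.2)
  have hS : ContDiffOn ℝ ∞ (fun p : ℂ × E n × E n =>
      (((Real.log (ρ p.2.1) + Real.log (ρ p.2.2)) / 2 : ℝ) : ℂ)) O :=
    Complex.ofRealCLM.contDiff.comp_contDiffOn ((hlog1.add hlog2).div_const 2)
  have hφs : ContDiff ℝ ∞ φ := (hφ.contDiff (n := ∞)).restrict_scalars ℝ
  have hz : ContDiffOn ℝ ∞ (fun p : ℂ × E n × E n => p.1) O := contDiff_fst.contDiffOn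
  have hg0 : Good m (fun s => J 0 e v (fun _ _ => 1) s) :=
    hGOODM m n M e v hm hM U (fun _ _ _ => 1) hC.isOpen hMU contDiffOn_const
      (fun x _ y _ => differentiable_const _) 0
  have hg1 : Good m (fun s => J 0 e v (fun x _ => (Real.log (ρ x) : ℂ)) s) :=
    hGOODM m n M e v hm hM U (fun _ x _ => (Real.log (ρ x) : ℂ)) hC.isOpen hMU
      (Complex.ofRealCLM.contDiff.comp_contDiffOn hlog1)
      (fun x _ y _ => differentiable_const _) 0
  have hg2 : Good m (fun s => J (-2) e v (fun x y => (s : ℂ) *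
      ((((Real.log (ρ x) + Real.log (ρ y)) / 2 : ℝ) : ℂ)) ^ 2 *
          φ (((s : ℂ) + 2 * m) * (((Real.log (ρ x) + Real.log (ρ y)) / 2 : ℝ) : ℂ))) s) := by
    refine hGOODM m n M e v hm hM U (fun z x y => z *
      ((((Real.log (ρ x) + Real.log (ρ y)) / 2 : ℝ) : ℂ)) ^ 2 *
          φ ((z + 2 * m) * (((Real.log (ρ x) + Real.log (ρ y)) / 2 : ℝ) : ℂ))) hC.isOpen hMU ?_ ?_
      (-2)
    · exact (hz.mul (hS.pow 2)).mul
        (hφs.comp_contDiffOn ((hz.add contDiffOn_const).mul hS))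
    · intro x _ y _
      exact (differentiable_id.mul_const _).mul
        (hφ.comp ((differentiable_id.add_const _).mul_const _))
  obtain ⟨A, a1, a2, a3⟩ := hg0
  obtain ⟨D, d1, d2, d3⟩ := hg1.add hg2
  have e1 : ∀ s : ℝ, 4 < s → pm m s * B s = A s := by
    intro s hs
    rw [hBs s hs]
    exact a3 s hs
  have e2 : ∀ s : ℝ, 4 < s → pm m s * B' s = A s + ((s : ℂ) + 2 * m) * D s := by
    intro s hs
    rw [hBs' s hs, hMASTER m n M e v e' v' T ρ U hM hM' hMU hC hor φ hφ hφe s hs, ← a3 s hs,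
      ← d3 s hs]
    ring
  have hAD : DifferentiableOn ℂ (fun z => A z + (z + 2 * (m : ℂ)) * D z)
      {z : ℂ | -(2 * (m : ℝ)) - 1 < z.re} :=
    a1.add (((differentiable_id.add_const _).differentiableOn).mul d1)
  exact limits a1 d1 a2 d2 (hIDENT m A B hBm a1 e1)
    (hIDENT m (fun z => A z + (z + 2 * (m : ℂ)) * D z) B' hBm' hAD e2)

end Pool.Agent.K3h16.MI
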