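import Pool.Agent.K3h16.MI.Defs

/-!
Moebius invariance of the nu-weighted energy (MP_34b615_gt): the statements of the bricks.
-/

open MeasureTheory Set Filter Topology
open scoped ContDiff

namespace Pool.Agent.K3h16.MI

/-- Moebius transformations are conformal near `M`. -/
def S_CONF1 : Prop := ∀ (n : ℕ) (T : E n → E n) (M : Set (E n)), IsMoebius T M →
  ∃ (ρ : E n → ℝ) (U : Set (E n)), M ⊆ U ∧ Conf T ρ U

/-- The derivative of a conformal map. -/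
def S_CONF2 : Prop := ∀ (n : ℕ) (T : E n → E n) (ρ : E n → ℝ) (U : Set (E n)), Conf T ρ U →
  ∀ x ∈ U, ∀ v w : E n, inner ℝ (fderiv ℝ T x v) (fderiv ℝ T x w) = ρ x ^ 2 * inner ℝ v w

/-- Invariance of the form `d_x d_y log |x-y|`. -/
def S_CONF3 : Prop := ∀ (n : ℕ) (T : E n → E n) (ρ : E n → ℝ) (U : Set (E n)), Conf T ρ U →
  ∀ x ∈ U, ∀ y ∈ U, x ≠ y → ∀ v w : E n,
    inner ℝ (fderiv ℝ T x v) (fderiv ℝ T y w) + (-2) * (inner ℝ (fderiv ℝ T x v) (T x - T y) *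
      inner ℝ (T x - T y) (fderiv ℝ T y w) / ‖T x - T y‖ ^ 2) =
    ρ x * ρ y * (inner ℝ v w + (-2) * (inner ℝ v (x - y) * inner ℝ (x - y) w / ‖x - y‖ ^ 2))

/-- Change of frames in `kdet`. -/
def S_KD : Prop := ∀ (m n : ℕ) (e₁ e₂ w₁ w₂ : Fin m → E n), Orthonormal ℝ e₁ →
  Orthonormal ℝ e₂ → SameOr e₁ w₁ → SameOr e₂ w₂ →
  0 < √ (pairing w₁ w₁) ∧
  ∀ (α : ℝ) (r : E n), kdet α w₁ w₂ r = √ (pairing w₁ w₁) * √ (pairing w₂ w₂) * kdet α e₁ e₂ r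

/-- One-sided version, with an arbitrary first system `w₁`, and for arbitrary linear forms. -/
def S_KD1 : Prop := ∀ (m n : ℕ) (e w : Fin m → E n), Orthonormal ℝ e → SameOr e w →
  0 < √ (pairing w w) ∧
  (∀ (w₁ : Fin m → E n) (α : ℝ) (r : E n), kdet α w₁ w r = √ (pairing w w) * kdet α w₁ e r) ∧
  ∀ l : Fin m → (E n →L[ℝ] ℝ), Matrix.det (Matrix.of fun a b => l a (w b)) =
    √ (pairing w w) * Matrix.det (Matrix.of fun a b => l a (e b))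

/-- Invariance of `kdet (-2)` under conformal maps. -/
def S_TMU : Prop := ∀ (m n : ℕ) (T : E n → E n) (ρ : E n → ℝ) (U : Set (E n)), Conf T ρ U →
  ∀ x ∈ U, ∀ y ∈ U, x ≠ y → ∀ (e₁ e₂ f₁ f₂ : Fin m → E n), Orthonormal ℝ e₁ →
  Orthonormal ℝ e₂ → Orthonormal ℝ f₁ → Orthonormal ℝ f₂ →
  SameOr f₁ (fun i => fderiv ℝ T x (e₁ i)) → SameOr f₂ (fun i => fderiv ℝ T y (e₂ i)) →
  kdet (-2) f₁ f₂ (T x - T y) = kdet (-2) e₁ e₂ (x - y)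

/-- `T ∘ γ` is a parametrization of `T(M)`. -/
def S_TPARAM : Prop := ∀ (m n : ℕ) (M : Set (E n)) (γ : E m → E n) (T : E n → E n)
  (ρ : E n → ℝ) (U : Set (E n)), IsCompact M → M ⊆ U → Conf T ρ U → IsParam M γ →
  IsParam (T '' M) (T ∘ γ) ∧ (∀ u b, pd (T ∘ γ) u b = fderiv ℝ T (γ u) (pd γ u b)) ∧
  ∀ u, jac (T ∘ γ) u = ρ (γ u) ^ m * jac γ u

/-- Finiteness of the volume. -/
def S_FIN : Prop := ∀ (m n : ℕ) (M : Set (E n)) (e : E n → Fin m → E n) (v : Measure (E n)),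
  IsOCS M e v → IsFiniteMeasure v

/-- Continuity of the kernels. -/
def S_CONT : Prop := ∀ (m n : ℕ) (M : Set (E n)) (e : E n → Fin m → E n) (v : Measure (E n)),
  IsOCS M e v → ∀ α s : ℝ, 0 < s →
  ContinuousOn (fun p : E n × E n => kdet α (e p.1) (e p.2) (p.1 - p.2) * ‖p.1 - p.2‖ ^ s)
    (M ×ˢ M)

/-- Continuity of the kernels in `y`, for arbitrary `x` and an arbitrary first system. -/
def S_CONT1 : Prop := ∀ (m n : ℕ) (M : Set (E n)) (e : E n → Fin m → E n) (v : Measure (E n)),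
  IsOCS M e v → ∀ (α s : ℝ) (x : E n) (w : Fin m → E n), 0 < s →
  ContinuousOn (fun y : E n => kdet α w (e y) (x - y) * ‖x - y‖ ^ s) M

/-- A finite oriented atlas with a partition of unity. -/
def S_POU : Prop := ∀ (m n : ℕ) (M : Set (E n)) (e : E n → Fin m → E n) (v : Measure (E n)),
  IsOCS M e v → ∃ (K : ℕ) (γ : Fin K → E m → E n) (χ η : Fin K → E n → ℝ) (W : Set (E n))
    (δ : ℝ), IsOpen W ∧ M ⊆ W ∧ 0 < δ ∧ (∀ x ∈ W, ∑ k, χ k x = 1) ∧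
    ∀ k, IsParam M (γ k) ∧ (∀ u, SameOr (e (γ k u)) (pd (γ k) u)) ∧
      ContDiff ℝ ∞ (χ k) ∧ ContDiff ℝ ∞ (η k) ∧
      HasCompactSupport (fun u => χ k (γ k u)) ∧ HasCompactSupport (fun u => η k (γ k u)) ∧
      (∀ x ∈ M, x ∉ range (γ k) → χ k x = 0 ∧ η k x = 0) ∧
      (∀ x ∈ M, ∀ y ∈ M, ‖x - y‖ < δ → χ k x ≠ 0 → η k y = 1) ∧
      ∀ x ∈ M, x ∉ range (γ k) → x ∉ tsupport (χ k)

/-- Integration in a parametrization. -/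
def S_CHI : Prop := ∀ (m n : ℕ) (M : Set (E n)) (e : E n → Fin m → E n) (v : Measure (E n)),
  IsOCS M e v → ∀ γ : E m → E n, IsParam M γ → ∀ f : E n → ℂ,
  (∀ x ∈ M, x ∉ range γ → f x = 0) →
  (∫ x, f x ∂v = ∫ u, (jac γ u : ℂ) * f (γ u)) ∧
  (Integrable f v ↔ Integrable (fun u => (jac γ u : ℂ) * f (γ u)))

/-- `∫ dφ_1 ∧ ⋯ ∧ dφ_m = 0` if `φ_i` has compact support. -/
def S_PIOLA : Prop := ∀ (m : ℕ) (i : Fin m) (φ : Fin m → E m → ℝ),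
  (∀ j, j ≠ i → ContDiff ℝ ∞ (φ j)) → ContDiff ℝ 1 (φ i) → HasCompactSupport (φ i) →
  ∫ u, Matrix.det (Matrix.of fun a b => fderiv ℝ (φ a) u (EuclideanSpace.single b 1)) = 0

/-- Stokes on `M`. -/
def S_STOKES : Prop := ∀ (m n : ℕ) (M : Set (E n)) (e : E n → Fin m → E n) (v : Measure (E n)),
  IsOCS M e v → ∀ (i : Fin m) (φ : Fin m → E n → ℝ),
  (∀ j, j ≠ i → ContDiff ℝ ∞ (φ j)) → ContDiff ℝ 1 (φ i) →
  Integrable (fun y => Matrix.det (Matrix.of fun a b => fderiv ℝ (φ a) y (e y b))) v ∧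
  ∫ y, Matrix.det (Matrix.of fun a b => fderiv ℝ (φ a) y (e y b)) ∂v = 0

/-- The exactness identity, for fixed `x`. -/
def S_EXACT : Prop := ∀ (m n : ℕ) (M : Set (E n)) (e : E n → Fin m → E n) (v : Measure (E n)),
  IsOCS M e v → ∀ s : ℝ, 4 < s → ∀ (x : E n) (w : Fin m → E n),
  ∫ y, kdet (-2) w (e y) (x - y) * ‖x - y‖ ^ s ∂v =
    (1 + 2 * m / s) * ∫ y, kdet 0 w (e y) (x - y) * ‖x - y‖ ^ s ∂v

/-- Transformation of integrals over `T(M)`. -/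
def S_TINT1 : Prop := ∀ (m n : ℕ) (M : Set (E n)) (e : E n → Fin m → E n) (v : Measure (E n))
  (e' : E n → Fin m → E n) (v' : Measure (E n)) (T : E n → E n) (ρ : E n → ℝ) (U : Set (E n)),
  IsOCS M e v → IsOCS (T '' M) e' v' → M ⊆ U → Conf T ρ U →
  ∀ f : E n → ℂ, ContinuousOn f (T '' M) → ∫ x, f x ∂v' = ∫ x, (ρ x : ℂ) ^ m * f (T x) ∂v

/-- Transformation of double integrals over `T(M)`. -/
def S_TINT2 : Prop := ∀ (m n : ℕ) (M : Set (E n)) (e : E n → Fin m → E n) (v : Measure (E n))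
  (e' : E n → Fin m → E n) (v' : Measure (E n)) (T : E n → E n) (ρ : E n → ℝ) (U : Set (E n)),
  IsOCS M e v → IsOCS (T '' M) e' v' → M ⊆ U → Conf T ρ U →
  ∀ K : E n → E n → ℂ, ContinuousOn (fun p : E n × E n => K p.1 p.2) ((T '' M) ×ˢ (T '' M)) →
  ∫ x, ∫ y, K x y ∂v' ∂v' = ∫ x, ∫ y, (ρ x : ℂ) ^ m * (ρ y : ℂ) ^ m * K (T x) (T y) ∂v ∂v

/-- The master identity. -/
def S_MASTER : Prop := ∀ (m n : ℕ) (M : Set (E n)) (e : E n → Fin m → E n) (v : Measure (E n))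
  (e' : E n → Fin m → E n) (v' : Measure (E n)) (T : E n → E n) (ρ : E n → ℝ) (U : Set (E n)),
  IsOCS M e v → IsOCS (T '' M) e' v' → M ⊆ U → Conf T ρ U →
  (∀ x ∈ M, SameOr (e' (T x)) (fun i => fderiv ℝ T x (e x i))) →
  ∀ φ : ℂ → ℂ, Differentiable ℂ φ → (∀ τ, Complex.exp τ = 1 + τ + τ ^ 2 * φ τ) →
  ∀ s : ℝ, 4 < s →
    J 0 e' v' (fun _ _ => 1) s = J 0 e v (fun _ _ => 1) s +
      ((s : ℂ) + 2 * m) * (J 0 e v (fun x _ => (Real.log (ρ x) : ℂ)) s +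
        J (-2) e v (fun x y => (s : ℂ) * ((((Real.log (ρ x) + Real.log (ρ y)) / 2 : ℝ) : ℂ)) ^ 2 *
          φ (((s : ℂ) + 2 * m) * (((Real.log (ρ x) + Real.log (ρ y)) / 2 : ℝ) : ℂ))) s)

/-- The entire function `(e^τ - 1 - τ)/τ²`. -/
def S_PHI : Prop := ∃ φ : ℂ → ℂ, Differentiable ℂ φ ∧ ∀ τ, Complex.exp τ = 1 + τ + τ ^ 2 * φ τ

/-- The annulus `1 ≤ |θ| ≤ e`. -/
def Ann (m : ℕ) : Set (E m) := {θ | 1 ≤ ‖θ‖ ∧ ‖θ‖ ≤ Real.exp 1}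

/-- Polar coordinates with an annulus in the place of the sphere. -/
def S_POLAR : Prop := ∀ m : ℕ, 1 ≤ m → ∀ F : E m → ℂ, Integrable F →
  ∫ h, F h = ∫ θ in Ann m, ∫ t in Ioi (0 : ℝ), (t : ℂ) ^ (m - 1) * F (t • θ)

/-- Repeated integration by parts in the radial variable. -/
def S_IBP : Prop := ∀ (N : ℕ) (f : ℝ → ℂ), ContDiff ℝ ∞ f → HasCompactSupport f →
  ∀ σ : ℂ, 0 < σ.re →
  (∏ j ∈ Finset.range N, (σ + j)) * ∫ t in Ioi (0 : ℝ), (t : ℂ) ^ (σ - 1) * f t =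
    (-1) ^ N * ∫ t in Ioi (0 : ℝ), (t : ℂ) ^ (σ + N - 1) * iteratedDeriv N f t

/-- Derivatives in `t` of a jointly smooth function, holomorphic in `z`. -/
def S_DT : Prop := ∀ (m : ℕ) (h : ℂ → E m → E m → ℝ → ℂ),
  ContDiffOn ℝ ∞ (fun p : ℂ × E m × E m × ℝ => h p.1 p.2.1 p.2.2.1 p.2.2.2)
    {p | p.2.2.1 ≠ 0} →
  (∀ u θ t, θ ≠ 0 → Differentiable ℂ (fun z => h z u θ t)) →
  ∀ N : ℕ, ContinuousOn (fun p : ℂ × E m × E m × ℝ =>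
      iteratedDeriv N (h p.1 p.2.1 p.2.2.1) p.2.2.2) {p | p.2.2.1 ≠ 0} ∧
    ∀ u θ t, θ ≠ 0 → Differentiable ℂ (fun z => iteratedDeriv N (h z u θ) t)

/-- Holomorphy of the parametric integral. -/
def S_HOL : Prop := ∀ (m : ℕ) (g : ℂ → E m → E m → ℝ → ℂ) (R : ℝ),
  ContinuousOn (fun p : ℂ × E m × E m × ℝ => g p.1 p.2.1 p.2.2.1 p.2.2.2) {p | p.2.2.1 ≠ 0} →
  (∀ u θ t, θ ≠ 0 → Differentiable ℂ (fun z => g z u θ t)) →
  (∀ z u θ t, 1 ≤ ‖θ‖ → (R < ‖u‖ ∨ R < |t|) → g z u θ t = 0) →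
  DifferentiableOn ℂ (fun z : ℂ => ∫ u : E m, ∫ θ in Ann m, ∫ t in Ioi (0 : ℝ),
    (t : ℂ) ^ (z + 2 * m) * g z u θ t) {z : ℂ | -(2 * (m : ℝ)) - 1 < z.re}

/-- The abstract polar lemma: continuation, simple poles and parity. -/
def S_PG : Prop := ∀ m : ℕ, 1 ≤ m → ∀ (h : ℂ → E m → E m → ℝ → ℂ) (R : ℝ),
  ContDiffOn ℝ ∞ (fun p : ℂ × E m × E m × ℝ => h p.1 p.2.1 p.2.2.1 p.2.2.2)
    {p | p.2.2.1 ≠ 0} →
  (∀ u θ t, θ ≠ 0 → Differentiable ℂ (fun z => h z u θ t)) →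
  (∀ z u θ t, 1 ≤ ‖θ‖ → (R < ‖u‖ ∨ R < |t|) → h z u θ t = 0) →
  (∀ z u θ t, h z u (-θ) (-t) = h z u θ t) →
  Good m (fun s => ∫ u : E m, ∫ θ in Ann m, ∫ t in Ioi (0 : ℝ),
    (t : ℂ) ^ ((s : ℂ) + m - 1) * h s u θ t)

/-- Hadamard's lemma for `(γ(u+tθ) - γ(u))/t`. -/
def S_HAD : Prop := ∀ (m n : ℕ) (γ : E m → E n), ContDiff ℝ ∞ γ →
  ∃ q : E m → E m → ℝ → E n,
    ContDiff ℝ ∞ (fun p : E m × E m × ℝ => q p.1 p.2.1 p.2.2) ∧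
    (∀ u θ t, t • q u θ t = γ (u + t • θ) - γ u) ∧ (∀ u θ, q u θ 0 = fderiv ℝ γ u θ) ∧
    ∀ u θ t, q u (-θ) (-t) = -q u θ t

/-- The kernel near the diagonal, in a parametrization. -/
def S_ON : Prop := ∀ (m n : ℕ) (γ : E m → E n), 1 ≤ m → ContDiff ℝ ∞ γ →
  Function.Injective γ → (∀ u, Function.Injective (fderiv ℝ γ u)) →
  ∀ (c : ℂ → E m → E m → ℂ) (R : ℝ),
  ContDiff ℝ ∞ (fun p : ℂ × E m × E m => c p.1 p.2.1 p.2.2) →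
  (∀ u u', Differentiable ℂ (fun z => c z u u')) →
  (∀ z u u', (R < ‖u‖ ∨ R < ‖u'‖) → c z u u' = 0) →
  ∀ α : ℝ, Good m (fun s => ∫ u : E m, ∫ u' : E m, c s u u' *
    ((kdet α (pd γ u) (pd γ u') (γ u - γ u') * ‖γ u - γ u'‖ ^ s : ℝ) : ℂ))

/-- The kernel away from the diagonal. -/
def S_OFF : Prop := ∀ (m n : ℕ) (M : Set (E n)) (e : E n → Fin m → E n) (v : Measure (E n)),
  IsOCS M e v → ∀ (c : ℂ → E n → E n → ℂ) (w : E n → E n → ℝ) (δ : ℝ), 0 < δ →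
  ContinuousOn (fun p : ℂ × E n × E n => c p.1 p.2.1 p.2.2) (univ ×ˢ (M ×ˢ M)) →
  (∀ x ∈ M, ∀ y ∈ M, Differentiable ℂ (fun z => c z x y)) →
  ContinuousOn (fun p : E n × E n => w p.1 p.2) (M ×ˢ M) →
  (∀ x ∈ M, ∀ y ∈ M, ‖x - y‖ < δ → w x y = 0) →
  ∀ α : ℝ, Good m (fun s => J α e v (fun x y => (w x y : ℂ) * c s x y) s)

/-- The continuation of the kernels on `M`. -/
def S_GOODM : Prop := ∀ (m n : ℕ) (M : Set (E n)) (e : E n → Fin m → E n) (v : Measure (E n)),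
  1 ≤ m → IsOCS M e v → ∀ (U : Set (E n)) (c : ℂ → E n → E n → ℂ), IsOpen U → M ⊆ U →
  ContDiffOn ℝ ∞ (fun p : ℂ × E n × E n => c p.1 p.2.1 p.2.2) (univ ×ˢ (U ×ˢ U)) →
  (∀ x ∈ U, ∀ y ∈ U, Differentiable ℂ (fun z => c z x y)) →
  ∀ α : ℝ, Good m (fun s => J α e v (c s) s)

/-- Identity theorem at `-2m`. -/
def S_IDENT : Prop := ∀ (m : ℕ) (A B : ℂ → ℂ), (∀ z, MeromorphicAt B z) →
  DifferentiableOn ℂ A {z : ℂ | -(2 * (m : ℝ)) - 1 < z.re} →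
  (∀ s : ℝ, 4 < s → pm m s * B s = A s) →
  ∀ᶠ z in 𝓝[≠] (-(2 * (m : ℂ))), pm m z * B z = A z

end Pool.Agent.K3h16.MI
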