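import Pool.Agent.K3h16.MI.Stm

/-!
Moebius invariance of the nu-weighted energy (MP_34b615_gt): statements for the existence of the
continuation.
-/

open MeasureTheory Set Filter Topology
open scoped ContDiff

namespace Pool.Agent.K3h16.MI

/-- Integrability of `|x-y|^σ` for `σ > -m`. -/
def S_INT : Prop := ∀ (m n : ℕ) (M : Set (E n)) (e : E n → Fin m → E n) (v : Measure (E n)),
  1 ≤ m → IsOCS M e v → ∀ σ : ℝ, -(m : ℝ) < σ →
  Integrable (fun p : E n × E n => ‖p.1 - p.2‖ ^ σ) (v.prod v)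

/-- The energy integral is holomorphic for `Re z > -m`. -/
def S_HOLM : Prop := ∀ (m n : ℕ) (M : Set (E n)) (e : E n → Fin m → E n) (v : Measure (E n)),
  1 ≤ m → IsOCS M e v →
  DifferentiableOn ℂ (fun z : ℂ => ∫ x, ∫ y, (pairing (e x) (e y) : ℂ) * (‖x - y‖ : ℂ) ^ z ∂v ∂v)
    {z : ℂ | -(m : ℝ) < z.re}

/-- Identity theorem at `-2m`, for functions meromorphic on the half plane. -/
def S_IDENT2 : Prop := ∀ (m : ℕ) (A B : ℂ → ℂ),
  (∀ z : ℂ, -(2 * (m : ℝ)) - 1 < z.re → MeromorphicAt B z) →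
  DifferentiableOn ℂ A {z : ℂ | -(2 * (m : ℝ)) - 1 < z.re} →
  (∀ s : ℝ, 4 < s → pm m s * B s = A s) →
  ∀ᶠ z in 𝓝[≠] (-(2 * (m : ℂ))), pm m z * B z = A z

/-- Identity theorem on the half plane `Re z > -m` for holomorphic functions. -/
def S_IDENT3 : Prop := ∀ (m : ℕ) (A F : ℂ → ℂ),
  DifferentiableOn ℂ A {z : ℂ | -(m : ℝ) < z.re} →
  DifferentiableOn ℂ F {z : ℂ | -(m : ℝ) < z.re} →
  (∀ s : ℝ, 4 < s → pm m s * F s = A s) →
  ∀ z : ℂ, -(m : ℝ) < z.re → pm m z * F z = A z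

end Pool.Agent.K3h16.MI
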